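import Mathlib
import Pool.Agent.R204.THc

/-!
# MP_d7339e_co

Q1: `Θ_{2,b,c}` is metrizable for all `b, c ≥ 2`.  Q2: `Θ_{3,3,3}` is metrizable.
-/

namespace Pool.Agent.Results.MP_d7339e_co.ThetaMetrizable

open SimpleGraph Pool.Agent.R204.TH

/-- Vertices of the theta graph whose three paths have `l 0`, `l 1` and `l 2` edges: the two
branch vertices `s` and `t`, and the inner vertices `1, …, l k - 1` of the `k`-th path. -/
inductive ThetaVertex (l : Fin 3 → ℕ) : Type
  | s : ThetaVertex l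
  | t : ThetaVertex l
  | inner (k : Fin 3) (i : ℕ) (h0 : 0 < i) (hi : i < l k) : ThetaVertex l

/-- The `i`-th vertex of the `k`-th path, from `s` (`i = 0`) to `t` (`i = l k`). -/
def vtx (l : Fin 3 → ℕ) (k : Fin 3) (i : ℕ) : ThetaVertex l :=
  if h : 0 < i ∧ i < l k then ThetaVertex.inner k i h.1 h.2
  else if i = 0 then ThetaVertex.s else ThetaVertex.t

/-- The theta graph: three paths `s = vtx k 0, vtx k 1, …, vtx k (l k) = t`, `k = 0, 1, 2`. -/
def theta (l : Fin 3 → ℕ) : SimpleGraph (ThetaVertex l) :=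
  SimpleGraph.fromRel (fun u v => ∃ k i, i < l k ∧ u = vtx l k i ∧ v = vtx l k (i + 1))

variable {l : Fin 3 → ℕ}

lemma vtx_zero (k : Fin 3) : vtx l k 0 = ThetaVertex.s := by simp [vtx]

lemma vtx_inner {k : Fin 3} {i : ℕ} (h0 : 0 < i) (hi : i < l k) :
    vtx l k i = ThetaVertex.inner k i h0 hi := by simp [vtx, h0, hi]

lemma vtx_last {k : Fin 3} (hk : 2 ≤ l k) : vtx l k (l k) = ThetaVertex.t := by
  have h : l k ≠ 0 := by omega
  simp [vtx, h]

lemma vtx_succ_ne {k : Fin 3} (hk : 2 ≤ l k) {i : ℕ} (hi : i < l k) :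
    vtx l k i ≠ vtx l k (i + 1) := by
  rcases Nat.eq_zero_or_pos i with h0 | h0
  · subst h0
    rw [vtx_zero, vtx_inner (k := k) (i := 0 + 1) (by omega) (by omega)]
    simp
  · rw [vtx_inner h0 hi]
    rcases Nat.lt_or_ge (i + 1) (l k) with h1 | h1
    · rw [vtx_inner (Nat.succ_pos i) h1]
      simp
    · have : i + 1 = l k := by omega
      rw [this, vtx_last hk]
      simp

/-- The structure of the theta graph. -/
def thetaTh (hl : ∀ k, 2 ≤ l k) : Th (theta l) where
  l := l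
  f := vtx l
  s := ThetaVertex.s
  t := ThetaVertex.t
  two_le := hl
  f_zero := vtx_zero
  f_last := fun k => vtx_last (hl k)
  st := by simp
  inj := by
    intro k i m j hi hik hj hjm h
    rw [vtx_inner hi hik, vtx_inner hj hjm] at h
    injection h with h1 h2
    exact ⟨h1, h2⟩
  ne_s := by
    intro k i hi hik h
    rw [vtx_inner hi hik] at h
    cases h
  ne_t := by
    intro k i hi hik h
    rw [vtx_inner hi hik] at h
    cases h
  cover := by
    intro v
    cases v with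
    | s => exact Or.inl rfl
    | t => exact Or.inr (Or.inl rfl)
    | inner k i h0 hi => exact Or.inr (Or.inr ⟨k, i, h0, hi, (vtx_inner h0 hi).symm⟩)
  adj := by
    intro u v
    unfold theta
    rw [SimpleGraph.fromRel_adj]
    constructor
    · rintro ⟨-, ⟨k, i, hi, h1, h2⟩ | ⟨k, i, hi, h1, h2⟩⟩
      · exact ⟨k, i, hi, Or.inl ⟨h1, h2⟩⟩
      · exact ⟨k, i, hi, Or.inr ⟨h1, h2⟩⟩
    · rintro ⟨k, i, hi, ⟨h1, h2⟩ | ⟨h1, h2⟩⟩
      · refine ⟨?_, Or.inl ⟨k, i, hi, h1, h2⟩⟩
        rw [h1, h2]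
        exact vtx_succ_ne (hl k) hi
      · refine ⟨?_, Or.inr ⟨k, i, hi, h1, h2⟩⟩
        rw [h1, h2]
        exact (vtx_succ_ne (hl k) hi).symm

/-- `Θ_{2,b,c}` is metrizable for all `b, c ≥ 2`, and `Θ_{3,3,3}` is metrizable. -/
theorem result : (∀ b c : ℕ, 2 ≤ b → 2 ≤ c → Metrizable (theta ![2, b, c])) ∧
    Metrizable (theta ![3, 3, 3]) := by
  constructor
  · intro b c hb hc
    refine (thetaTh (l := ![2, b, c]) ?_).metrizable_of_two 0 rfl
    intro k
    fin_cases k
    · exact le_rfl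
    · exact hb
    · exact hc
  · refine (thetaTh (l := ![3, 3, 3]) ?_).metrizable_of_three ?_
    · intro k
      fin_cases k <;> simp
    · intro k
      change ![3, 3, 3] k ≤ 3
      fin_cases k <;> simp

end Pool.Agent.Results.MP_d7339e_co.ThetaMetrizable
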